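import Pool.Agent.N162.GP.Facts
import Pool.Agent.N162.GP.Def
import Pool.Agent.N162.GP.Final2
import Pool.Agent.TH466.QG.Low

/-!
# Bloch's conjecture for correspondences of quadratic degree to smooth complete intersections and to
their images

Let `V` be a smooth complete intersection of codimension at least two in a projective space, for
instance a surface, with `K_V = O(m)`, or more generally any variety in projective `(M + 1)`-space which
is cut out by equations of degree at most `D` and has the regular canonical forms `P(x) ω₀` for all
forms `P` of degree `m` (`LowDegree`, `Pool/Agent/N162/GP/Def.lean`); `n` is the dimension of `V`. Let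
`V ⇢ W` be a dominant rational map of finite degree `r` to any variety `W`, for instance `W = V`.

Let `X` be any variety and let `Ω` be an algebraic closure of its function field. A correspondence from
`X` to `W` all of whose components dominate `X` and `W` is the same as a finite integral combination
`c = ∑ c(σ) σ` of embeddings `σ : L → Ω` of the function field `L` of `W` over `ℂ` which is invariant
under the Galois group of `Ω` over `ℂ(X)`: it is the restriction of the correspondence to the generic
point of `X`, a cycle of generic points of `W` with values in `Ω`. The theorem is about all `c`; no
invariance is needed. `NullTrace` (`Pool/Agent/N162/BC/Defs.lean`): `∑ c(σ) σ^* ω = 0` for all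
global canonical forms `ω` on `W`.

**Theorem.** Suppose that `m ≥ 7 N + 4`, `(M + 1) N < m + M + 2` and `D + N ≤ m + 2`. If `c` has null
trace and fewer than `(N + 1) (m + 2 - N) / r` points then `c = 0`.

So, let `W` be such a surface (`n = 2`), and let `Γ` be a cycle of dimension 2 on `W × W` whose
restriction to the generic point of one of the factors has fewer than `(N + 1) (m + 2 - N) / r` points,
not counting the components which are not dominant over both factors. Then `[Γ]_*^{2,0} = 0` if and
only if `Γ` has no components which dominate both factors. (`[Γ]_*^{2,0} = 0` is equivalent to
`[Γ]^* = 0` on `H^{2,0}`, by duality and complex conjugation; the other components do not act on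
`H^{2,0}`.) In this case `gr [Γ]_* = 0` on the kernel of the Albanese map, because a component over a
curve in the first factor acts by zero, and one over a curve in the second factor acts through the
Jacobian of this curve (standard, not formalised here). This is the open direction of the question for
these surfaces and all such `Γ`, of degree up to a constant times `m ^ 2`. For smooth complete
intersections of the type `(d_1, ..., d_q)` in `ℙ^(n+q)` one has `m = ∑ d_i - n - q - 1`, `D = max d_i`,
`M + 1 = n + q`. With the best `N` the bound `(N + 1) (m + 2 - N)` is `(6 / 49 - o(1)) m ^ 2` if `M ≤ 5`
and `max d_i ≤ 6 m / 7`; for surfaces of the type `(d, d)` in `ℙ^4` it is `(24 / 49 - o(1)) d ^ 2`. In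
terms of cycles: two different effective cycles of `k` generic points of `W` each, where
`2 k r < (N + 1) (m + 2 - N)`, are not rationally equivalent, by Mumford's theorem.

The linear bound `m + 2` for `r = 1` (the case `N = 0`) is well known: `m + 1` points impose independent
conditions on the forms of degree `m`. For surfaces in `ℙ³`, where the sections with curves of low
degree are cycles with null trace, see our `MP_762f97_ag.QuadraticDegree` and
`MP_e1e111_ag.CyclesOnHypersurfaces`.

## Proof

A cycle on `W` with null trace gives a relation `∑ c(σ) κ(σ) T_P(σ) = 0`, `κ(σ) ≠ 0`, between the values of
the traces `T_P` of the forms `P(x) ω₀` from `V` to `W`, hence a relation between the values of the forms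
`P` of degree `m` at the points of `V` over the points of `c`, again with coefficients which are not
zero. We show that fewer than `(N + 1) (m + 2 - N)` generic points of `V` impose independent conditions
on the forms of degree `m`. Otherwise, by results on points in a plane applied to projections and by the
Cayley-Bacharach theorem for the `M + 1` equations of `M` cylinders and a hypersurface, as in the papers
mentioned above, the points are on a curve in projective `(M + 1)`-space over `Ω` with components `C_i` of
total degree at most `N`, and one of the components `C` of degree `g` contains at least `g (m + 3 - N)` of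
the points. Since `m + 3 - N > D`, the equations of `V` vanish on `C`, so `C ⊂ V_Ω` is a curve of degree
at most `N` which contains generic points of `V`. We pull the forms `P(x) ω₀` back to the total space of
the family of curves given by `C`: for derivations `δ_1, ..., δ_n` of the function field `E` of `C`, one of
which is `d/dX_1` while the others are lifts of derivations of `Ω`, the function
`h = (ω₀)(δ_1, ..., δ_n)` on `C` has the property that `(X_1 - a) h` vanishes at all points with
`X_1 = a`, and `X_1 ^ (m + 1) h` at the points at infinity. By the residue theorem the traces of `P(X) h`
from `E` to `Ω(X_1)` vanish for all `P` of degree at most `m`; since the degree of `C` is at most `m + 1`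
these `P(X)` generate `E`, and `h = 0`. But for a suitable choice of the `δ_i` this is not true, because
`X_1` is not a constant in `Ω`.

The parts were formalised by helper2, helper11, helper340, helper774, helper823, helper152, helper383,
helper252, helper339, helper645, helper619, helper273, helper681 and helper364, the earlier parts which
are used (points in the plane and in space, function fields of curves, curves in space) by helper565,
helper279, helper543, helper488, helper570, helper80, helper966, helper31, helper169, helper401,
helper615, helper490, helper27, helper717, helper861, helper247 and others; the statements and the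
assembly by helper162.
-/

set_option autoImplicit false

open Pool.Agent.N162.BC Pool.Agent.N162.GP

namespace Pool.Agent.Results.MP_31564d_ag.CompleteIntersections

/-- **Cycles with null trace and few points are zero.** (1) A smooth complete intersection `V` of
dimension `n ≥ 1` of hypersurfaces of the degrees `d i ≤ D` in projective `(M + 1)`-space is cut out by
equations of degree at most `D`, and the forms of degree `m = ∑ d i - M - 2` give regular canonical
forms. (2) Let `V` be any such variety of dimension `n` in projective `(M + 1)`-space, `M ≥ 1`, and let
`m ≥ 7 N + 4`, `(M + 1) N < m + M + 2`, `D + N ≤ m + 2`. Let `L ⊆ K` be the function field of a variety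
`W`, such that `K` is finite over `L`, let `Ω` be an algebraically closed field of finite transcendence
degree, and let `c` be an integral combination of embeddings `L → Ω` over `ℂ` with null trace whose
number of points is less than `(N + 1) (m + 2 - N) / [K : L]`. Then `c = 0`. -/
theorem result :
    (∀ (M n q m D : ℕ) (K : Type) [Field K] [Algebra ℂ K]
      (F : Fin q → MvPolynomial (Fin (M + 2)) ℂ) (d : Fin q → ℕ) (x : Fin (M + 2) → K),
      SmoothCI F d x → 1 ≤ n → Algebra.trdeg ℂ K = n → n + q = M + 1 → m + M + 2 = ∑ i, d i →
      (∀ i, d i ≤ D) → 1 ≤ D → LowDegree n m D x) ∧
    ∀ (M n m D N t : ℕ) (K L Ω : Type) [Field K] [Algebra ℂ K] [Field L] [Algebra ℂ L]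
      [Algebra L K] [IsScalarTower ℂ L K] [FiniteDimensional L K] [Field Ω] [Algebra ℂ Ω]
      [IsAlgClosed Ω] (x : Fin (M + 2) → K), LowDegree n m D x → 1 ≤ M → 7 * N + 4 ≤ m →
      (M + 1) * N < m + M + 2 → D + N ≤ m + 2 → Algebra.trdeg ℂ Ω = t →
      ∀ c : (L →ₐ[ℂ] Ω) →₀ ℤ, NullTrace n c →
      c.support.card * Module.finrank L K < (N + 1) * (m + 2 - N) → c = 0 := by
  refine ⟨fun M n q m D K _ _ F d x h hn hK hq hm hD hD1 =>
    lowDegree_of_smoothCI fCIC fCIA h hn hK hq hm hD hD1, ?_⟩
  intro M n m D N t K L Ω _ _ _ _ _ _ _ _ _ _ x h hM hm hN hD hΩ c hc hcard
  obtain ⟨ω₀, hω₀⟩ := h.forms
  haveI := ess_of_gen h.gen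
  haveI : Algebra.EssFiniteType ℂ L := Pool.Agent.TH466.QG.ess_below (K := K)
  exact null_zero' fINX hM hm hN hD h.one h.gen h.dim h.cut hω₀ fTRF fTRS fNTW hΩ hc hcard

end Pool.Agent.Results.MP_31564d_ag.CompleteIntersections
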