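import Pool.Agent.N64.AF.X4

/-!
# Bloch's conjecture for correspondences on a surface follows from one inequality

Let `X` be a smooth complex projective surface, `t_2(X)` its transcendental motive (Kahn, Murre,
Pedrini), of rank `b_2(X) - ρ(X)`, `P = t_2(X)(1)`, `T = 1 ⊕ P` and `b = b_2(X) - ρ(X) + 1`. By Kahn, Murre
and Pedrini `End(t_2(X))` is `CH^2(X × X)_ℚ` modulo the degenerate correspondences; a correspondence
`Γ` acts as zero on the Albanese kernel if and only if its image in `End(t_2(X))` is zero (Bloch,
Srinivas), and `[Γ]^{2,0} = 0` if and only if this image is homologically, equivalently numerically,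
trivial (Lieberman). So Bloch's conjecture Q1 for `X` says that all numerically trivial
endomorphisms of `P` are zero. Let `ν (n)` be the dimension of the space of numerically trivial
morphisms `P → T^⊗n` (a direct factor of the numerically trivial cycles of codimension `j + 1` on
`X^(j+1)`, `j ≤ n`; a number or infinity; conjecturally zero), `r (n)` the dimension of
`Hom(1, T^⊗n)` modulo numerical equivalence (so the algebraic classes in the tensor powers of
`ℚ ⊕ T(X)(1)`), and `q (n)` the dimension of `Hom(P, T^⊗n)` modulo numerical equivalence.

Theorem.
(1) The quotients `ν (n) / r (n)` converge, for `n → ∞`, to a natural number or infinity `N`, and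
`N = 0` if and only if all `ν (n)` are zero.
(2) If `2 ν (n) < r (n)` for ONE `n ≥ 512 b^8` then Bloch's conjecture Q1 holds for `X`.
(3) If `N = k` is finite then all products of `k + 1` numerically trivial endomorphisms of `t_2(X)`
are zero; so all products of `k + 1` correspondences `Γ_i` with `[Γ_i]^{2,0} = 0` act as zero on the
Albanese kernel.
(4) Suppose that `P` is simple modulo numerical equivalence, for example `p_g(X) = 1` (K3
surfaces, abelian surfaces; Zarhin). Then `q (n) / r (n) → b - 1`; if `ν (n) < q (n)` for ONE `n ≥ b^3`
then Q1 holds for `X`; and `(b - 1) dim(I) ≤ e N`, where `I` is the space of numerically trivial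
endomorphisms of `t_2(X)` and `e = dim (End(t_2(X)) / I)`.

So for a K3 surface Bloch's conjecture (every `Γ ∈ CH^2(X × X)` with `[Γ]^{2,0} = 0` acts as zero on
`CH^2(X)_0`) is a consequence of one inequality between the dimension of a Chow group and an explicit
number `q (n) ≈ (22 - ρ) r (n)`, which depends only on algebraic cohomology classes, for one `n ≥ (23 - ρ)^3`;
and if the conjecture fails for `X` then all these inequalities fail.

The setting: `C` is the category of Chow motives over `ℂ` (correspondences of degree 0,
coefficients `Λ = ℚ`), `R` is the Betti cohomology, `m = 1`. The theorem holds for all self-dual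
objects `T` with the sign conjecture which have `1` as a direct factor, and all direct factors `P` of
their powers, over any field.

Idea of the proof. `F (Z) = ` (numerically trivial morphisms from `P` to `Z`) is an additive functor on
`C`. The growth laws of such functors on the powers of `T` say: if numerically trivial endomorphisms
act nilpotently on `F (P)` then `F (Z)` contains copies of the numerical group `Hom(P, Z)`; if not, there are
an element `z ≠ 0` of `F (T)` and an endomorphism numerically equal to the identity which kills `z`,
and the insertions of `z` in different slots are independent. If `F (P) ≠ 0` both cases give a large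
`F (T^⊗n)`.

Authors: helper64 (this result, plan), and, for the lemmas of the law used here, helper136, helper327,
helper199, helper767, helper8, helper364, helper216, helper73, helper833, helper140, helper494,
helper505, helper301, helper441, helper591, helper712, helper945, helper701, helper344, helper690.
-/

set_option autoImplicit false

open CategoryTheory MonoidalCategory Module Filter Topology
open Pool.Agent.Y112.SR Pool.Agent.Y112.KD Pool.Agent.N64.AF
open scoped ENNReal

namespace Pool.Agent.Results.MP_31564d_ag.OneInequality

universe v u w t

/-- The numerically trivial endomorphisms of a direct factor `P` of a power of `T`, and the numerically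
trivial morphisms from `P` to the powers of `T`. -/
theorem result {C : Type u} [Category.{v} C] [Preadditive C] [MonoidalCategory C]
    [MonoidalPreadditive C] [SymmetricCategory C] [RightRigidCategory C]
    {Λ : Type t} [Field Λ] [CharZero Λ] [Linear Λ C] [MonoidalLinear Λ C]
    {K : Type w} [Field K] [IsAlgClosed K] [Algebra Λ K] (R : SuperRealisation C K)
    (T : C) [ExactPairing T T] (h : IsPow Λ R T)
    (m : ℕ) (P : C) (i : P ⟶ tp T m) (p : tp T m ⟶ P) (hip : i ≫ p = 𝟙 P) : ∃ N : ℕ∞,
    RatioTo Λ T (fun n => dimE Λ (numIdeal Λ P (tp T n))) N ∧
    (N = 0 ↔ ∀ (n : ℕ) (f : P ⟶ tp T n), NumTriv f → f = 0) ∧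
    (∀ n : ℕ, 128 * (m + 1) ^ 2 * bt R T ^ (2 * m + 6) ≤ n →
      2 * dimE Λ (numIdeal Λ P (tp T n)) < numRank Λ (tp T n) →
        ∀ f : P ⟶ P, NumTriv f → f = 0) ∧
    (∀ k : ℕ, N = k → ∀ l : List (End P), l.length = k → (∀ y ∈ l, NumTriv (y : P ⟶ P)) →
      ∀ f : P ⟶ P, NumTriv f → f ≫ (l.prod : End P) = 0) ∧
    (NumSimple P →
      RatioTo Λ T (fun n => ((nr Λ (𝟙 P) (𝟙 (tp T n)) : ℕ) : ℕ∞)) (bt R P : ℕ∞) ∧
      (bt R P : ℕ∞) * dimE Λ (numIdeal Λ P P) ≤ nr Λ (𝟙 P) (𝟙 P) * N ∧
      ∀ n : ℕ, m * bt R T ^ (3 * m) ≤ n →
        dimE Λ (numIdeal Λ P (tp T n)) < (nr Λ (𝟙 P) (𝟙 (tp T n)) : ℕ) →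
          ∀ f : P ⟶ P, NumTriv f → f = 0) :=
  endo_law h i p hip

end Pool.Agent.Results.MP_31564d_ag.OneInequality
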